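import Pool.Agent.Lib.MP_c7af3c_ag.FANO.Iface

/-!
# MP_c7af3c_ag, project FANO: module SYMR
-/

set_option autoImplicit false

namespace Pool.Agent.Fano.H54

open MvPolynomial Pool.Agent.Gen Pool.Agent.Sharp Pool.Agent.Fano

variable {L : Type} [Field L] {r : ℕ}

theorem hom_subs (γ : Matrix (Fin r) (Fin r) L) {F : MvPolynomial (Fin r) L} {e : ℕ}
    (hF : F.IsHomogeneous e) : (subs γ F).IsHomogeneous e := by
  unfold subs
  have h1 := hF.aeval (fun i => ∑ j, C (γ i j) * (X j : MvPolynomial (Fin r) L)) (n := 1)
    (fun p => IsHomogeneous.sum _ _ _ fun a _ => by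
      have := (isHomogeneous_C (Fin r) (γ p a)).mul (isHomogeneous_X L a)
      rwa [zero_add] at this)
  rwa [one_mul] at h1

theorem subs_X (γ : Matrix (Fin r) (Fin r) L) (i : Fin r) :
    subs γ (X i) = ∑ j, C (γ i j) * X j := by
  unfold subs
  rw [aeval_X]

theorem subs_C (γ : Matrix (Fin r) (Fin r) L) (c : L) : subs γ (C c) = C c := by
  unfold subs
  rw [aeval_C]
  rfl

theorem subs_subs (γ γ' : Matrix (Fin r) (Fin r) L) (P : MvPolynomial (Fin r) L) :
    subs γ (subs γ' P) = subs (γ' * γ) P := by
  have : (subs γ).comp (subs γ') = subs (γ' * γ) := by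
    apply MvPolynomial.algHom_ext
    intro i
    rw [AlgHom.comp_apply, subs_X, subs_X, map_sum]
    have h1 : ∀ j, subs γ (C (γ' i j) * X j) = ∑ k, C (γ' i j * γ j k) * X k := by
      intro j
      rw [map_mul, subs_C, subs_X, Finset.mul_sum]
      exact Finset.sum_congr rfl fun k _ => by rw [C_mul, mul_assoc]
    rw [Finset.sum_congr rfl fun j _ => h1 j, Finset.sum_comm]
    refine Finset.sum_congr rfl fun k _ => ?_
    rw [Matrix.mul_apply, map_sum, Finset.sum_mul]
  exact DFunLike.congr_fun this P

/-- a form as a sum over the monomials of its degree -/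
theorem form_sum {e : ℕ} {F : MvPolynomial (Fin r) L} (hF : F.IsHomogeneous e) :
    F = ∑ a : Mon r e, C (coeff a.1 F) * monomial a.1 1 := by
  classical
  ext I
  rw [coeff_sum]
  simp only [coeff_C_mul, coeff_monomial, mul_ite, mul_one, mul_zero]
  by_cases hI : I.degree = e
  · rw [Finset.sum_eq_single ⟨I, hI⟩]
    · simp
    · intro b _ hb
      rw [if_neg]
      intro h
      exact hb (Subtype.ext h)
    · intro h
      exact absurd (Finset.mem_univ _) h
  · have h1 : coeff I F = 0 := by
      by_contra hc
      refine hI ?_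
      have := hF hc
      rw [← this]
      exact DFunLike.congr_fun (Finsupp.degree_eq_weight_one (R := ℕ) (σ := Fin r)) I
    rw [h1]
    symm
    refine Finset.sum_eq_zero fun b _ => ?_
    rw [if_neg]
    rintro rfl
    exact hI b.2

theorem hom_mon {e : ℕ} (a : Mon r e) : (monomial a.1 (1 : L)).IsHomogeneous e :=
  isHomogeneous_monomial 1 a.2

theorem symS_mul (γ γ' : Matrix (Fin r) (Fin r) L) (d : ℕ) :
    symS (γ' * γ) d = symS γ' d * symS γ d := by
  ext a b
  rw [Matrix.mul_apply]
  show coeff b.1 (subs (γ' * γ) (monomial a.1 1)) = ∑ c : Mon r d,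
    coeff c.1 (subs γ' (monomial a.1 1)) * coeff b.1 (subs γ (monomial c.1 1))
  rw [← subs_subs]
  conv_lhs => rw [form_sum (hom_subs γ' (hom_mon a))]
  rw [map_sum, coeff_sum]
  refine Finset.sum_congr rfl fun c _ => ?_
  rw [map_mul, subs_C, coeff_C_mul]

theorem symS_diag (t : Fin r → L) (d : ℕ) :
    symS (Matrix.diagonal t) d = Matrix.diagonal fun a : Mon r d => ∏ i, t i ^ (a.1 i) := by
  classical
  ext a b
  show coeff b.1 (subs (Matrix.diagonal t) (monomial a.1 1)) = _
  have h1 : subs (Matrix.diagonal t) (monomial a.1 1) = C (∏ i, t i ^ (a.1 i)) *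
      monomial a.1 1 := by
    unfold subs
    rw [aeval_monomial, map_one, one_mul, Finsupp.prod_fintype _ _ fun i => pow_zero _]
    rw [monomial_eq (s := a.1), Finsupp.prod_fintype _ _ fun i => pow_zero _, C_1, one_mul,
      map_prod, ← Finset.prod_mul_distrib]
    refine Finset.prod_congr rfl fun i _ => ?_
    rw [Finset.sum_eq_single i]
    · rw [Matrix.diagonal_apply_eq, mul_pow, map_pow]
    · intro j _ hj
      rw [Matrix.diagonal_apply_ne _ (Ne.symm hj), map_zero, zero_mul]
    · intro h
      exact absurd (Finset.mem_univ _) h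
  rw [h1, coeff_C_mul, coeff_monomial, Matrix.diagonal_apply]
  by_cases h : a = b
  · rw [if_pos h, if_pos (by rw [h]), mul_one]
  · rw [if_neg h, if_neg (fun h' => h (Subtype.ext h')), mul_zero]

theorem symS_one (d : ℕ) : symS (1 : Matrix (Fin r) (Fin r) L) d = 1 := by
  rw [← Matrix.diagonal_one, symS_diag]
  simp

theorem det_symS_ne {γ : Matrix (Fin r) (Fin r) L} (h : γ.det ≠ 0) (d : ℕ) :
    (symS γ d).det ≠ 0 := by
  have h1 : γ * γ⁻¹ = 1 := Matrix.mul_nonsing_inv _ (isUnit_iff_ne_zero.2 h)
  have h2 := symS_mul γ⁻¹ γ d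
  rw [h1, symS_one] at h2
  have h3 := congrArg Matrix.det h2
  rw [Matrix.det_one, Matrix.det_mul] at h3
  exact left_ne_zero_of_mul_eq_one h3.symm

/-! ### The sum of the exponents -/

/-- a permutation of the variables -/
noncomputable def permMon (σ : Equiv.Perm (Fin r)) (d : ℕ) : Mon r d ≃ Mon r d where
  toFun a := ⟨Finsupp.equivMapDomain σ a.1, by
    have h := a.2
    rw [Finsupp.degree_eq_sum] at h ⊢
    simp only [Finsupp.equivMapDomain_apply]
    rw [Equiv.sum_comp σ.symm (fun i => a.1 i), h]⟩
  invFun a := ⟨Finsupp.equivMapDomain σ.symm a.1, by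
    have h := a.2
    rw [Finsupp.degree_eq_sum] at h ⊢
    simp only [Finsupp.equivMapDomain_apply]
    rw [Equiv.sum_comp σ.symm.symm (fun i => a.1 i), h]⟩
  left_inv a := by
    apply Subtype.ext
    ext i
    simp
  right_inv a := by
    apply Subtype.ext
    ext i
    simp

theorem sum_exp_const (d : ℕ) (i j : Fin r) : ∑ a : Mon r d, a.1 i = ∑ a : Mon r d, a.1 j := by
  rw [← Equiv.sum_comp (permMon (Equiv.swap i j) d)]
  refine Finset.sum_congr rfl fun a _ => ?_
  show Finsupp.equivMapDomain (Equiv.swap i j) a.1 i = _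
  rw [Finsupp.equivMapDomain_apply, Equiv.symm_swap, Equiv.swap_apply_left]

theorem card_mon (r d : ℕ) : Fintype.card (Mon r d) = (r + d - 1).choose d := by
  have h := Finset.card_finsuppAntidiag_nat_eq_choose (s := (Finset.univ : Finset (Fin r))) d
  rw [Finset.card_univ, Fintype.card_fin] at h
  rw [← h, ← Fintype.card_coe]
  exact Fintype.card_congr (Equiv.subtypeEquivRight fun a => mem_antidiag a).symm

theorem sum_exp (d : ℕ) (i : Fin r) : ∑ a : Mon r d, a.1 i = (d + r - 1).choose r := by
  have h1 : ∑ j : Fin r, ∑ a : Mon r d, a.1 j = d * (r + d - 1).choose d := by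
    rw [Finset.sum_comm, ← card_mon]
    have : ∀ a : Mon r d, ∑ j, a.1 j = d := fun a => by
      rw [← Finsupp.degree_eq_sum]; exact a.2
    rw [Finset.sum_congr rfl fun a _ => this a, Finset.sum_const, Finset.card_univ, smul_eq_mul,
      mul_comm]
  rw [Finset.sum_congr rfl fun j _ => sum_exp_const d j i, Finset.sum_const, Finset.card_univ,
    Fintype.card_fin, smul_eq_mul] at h1
  have hr : 0 < r := i.pos
  apply Nat.eq_of_mul_eq_mul_left hr
  rw [h1]
  rcases d with _ | e
  · rw [zero_mul]
    rw [Nat.choose_eq_zero_of_lt (by omega), mul_zero]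
  · obtain ⟨s, rfl⟩ : ∃ s, r = s + 1 := ⟨r - 1, by omega⟩
    have e1 : s + 1 + (e + 1) - 1 = e + s + 1 := by omega
    have e2 : e + 1 + (s + 1) - 1 = e + s + 1 := by omega
    rw [e1, e2, mul_comm, mul_comm (s + 1)]
    have h3 := Nat.add_one_mul_choose_eq (e + s) e
    have h4 := Nat.add_one_mul_choose_eq (e + s) s
    rw [← h3, ← h4]
    congr 1
    rw [Nat.choose_symm_add]

theorem det_symS_diag (t : Fin r → L) (d : ℕ) :
    (symS (Matrix.diagonal t) d).det = (Matrix.diagonal t).det ^ ((d + r - 1).choose r) := by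
  rw [symS_diag, Matrix.det_diagonal, Matrix.det_diagonal, Finset.prod_comm,
    ← Finset.prod_pow]
  refine Finset.prod_congr rfl fun i _ => ?_
  rw [Finset.prod_pow_eq_pow_sum, sum_exp]

theorem det_symS_trans [CharZero L] (i j : Fin r) (hij : i ≠ j) (c : L) (d : ℕ) :
    (symS (Matrix.transvection i j c) d).det = 1 := by
  classical
  let t : Fin r → L := fun k => if k = i then 2 else 1
  have ht : (Matrix.diagonal t).det ≠ 0 := by
    rw [Matrix.det_diagonal, Finset.prod_ne_zero_iff]
    intro k _
    simp only [t]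
    split_ifs <;> norm_num
  have h1 : Matrix.diagonal t * Matrix.transvection i j c =
      Matrix.transvection i j (2 * c) * Matrix.diagonal t := by
    ext a b
    rw [Matrix.diagonal_mul, Matrix.mul_diagonal]
    simp only [Matrix.transvection, Matrix.add_apply, Matrix.one_apply, Matrix.single_apply, t]
    by_cases ha : a = i
    · subst ha
      by_cases hb : j = b
      · subst hb
        simp [hij, Ne.symm hij]
      · by_cases hab : a = b
        · subst hab
          simp [hb]
        · simp [hab, hb]
    · by_cases hab : a = b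
      · subst hab
        simp [ha, Ne.symm ha]
      · simp [ha, Ne.symm ha, hab]
  have h2 : Matrix.transvection i j (2 * c) = Matrix.transvection i j c *
      Matrix.transvection i j c := by
    rw [Matrix.transvection_mul_transvection_same i j hij, two_mul]
  have h3 := congrArg (fun M => (symS M d).det) h1
  simp only [symS_mul, Matrix.det_mul] at h3
  rw [h2, symS_mul, Matrix.det_mul] at h3
  have hD := det_symS_ne ht d
  have hu : (symS (Matrix.transvection i j c) d).det ≠ 0 :=
    det_symS_ne (by rw [Matrix.det_transvection_of_ne i j hij]; exact one_ne_zero) d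
  have h4 : (symS (Matrix.transvection i j c) d).det * (symS (Matrix.diagonal t) d).det *
      (symS (Matrix.transvection i j c) d).det = 1 * (symS (Matrix.diagonal t) d).det *
      (symS (Matrix.transvection i j c) d).det := by
    linear_combination -h3
  exact mul_right_cancel₀ hD (mul_right_cancel₀ hu h4)

/-- Module SYMR. -/
theorem symr : SymrStatement := by
  classical
  intro L _ _ r d γ
  apply Matrix.diagonal_transvection_induction
    (fun M : Matrix (Fin r) (Fin r) L => (symS M d).det = M.det ^ ((d + r - 1).choose r)) γ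
  · intro t _
    exact det_symS_diag t d
  · rintro ⟨i, j, hij, c⟩
    rw [Matrix.TransvectionStruct.toMatrix_mk, det_symS_trans i j hij,
      Matrix.det_transvection_of_ne i j hij, one_pow]
  · intro A B hA hB
    rw [symS_mul, Matrix.det_mul, hA, hB, Matrix.det_mul, mul_pow]

end Pool.Agent.Fano.H54
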