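import Pool.Agent.Lib.MP_c7af3c_ag.FANO.H54.Rest
import Pool.Agent.Lib.MP_c7af3c_ag.FANO.H54.SymR

/-!
# MP_c7af3c_ag, project FANO: module CMPR
-/

set_option autoImplicit false

namespace Pool.Agent.Fano.H54

open MvPolynomial Pool.Agent.Gen Pool.Agent.Sharp Pool.Agent.Fano

/-- determinant with columns changed modulo the other columns -/
theorem det_change {L : Type*} [Field L] {P H ι : Type*} [Fintype P] [Fintype H] [DecidableEq P]
    [DecidableEq H] [Fintype ι] (e : P ⊕ H ≃ ι) (A : P → ι → L) (v v' : H → ι → L)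
    (Γ : Matrix H H L) (h : ∀ b, v' b - ∑ b', Γ b b' • v b' ∈ Submodule.span L (Set.range A)) :
    Matrix.det (Matrix.of fun k k' => Sum.elim A v' k' (e k)) =
      Γ.det * Matrix.det (Matrix.of fun k k' => Sum.elim A v k' (e k)) := by
  have h1 : ∀ b, ∃ z : P → L, ∑ p, z p • A p = v' b - ∑ b', Γ b b' • v b' := fun b =>
    (Submodule.mem_span_range_iff_exists_fun L).1 (h b)
  choose z hz using h1
  have h2 : (Matrix.of fun k k' => Sum.elim A v' k' (e k)) =
      (Matrix.of fun k k' => Sum.elim A v k' (e k)) *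
      (Matrix.fromBlocks (1 : Matrix P P L) (Matrix.of fun p b => z b p) 0 Γ.transpose) := by
    ext k k'
    rw [Matrix.mul_apply, Fintype.sum_sum_type]
    rcases k' with p | b
    · simp [Matrix.one_apply]
    · simp only [Matrix.of_apply, Sum.elim_inr, Sum.elim_inl, Matrix.fromBlocks_apply₁₂,
        Matrix.fromBlocks_apply₂₂, Matrix.transpose_apply]
      have h3 := congrFun (hz b) (e k)
      simp only [Finset.sum_apply, Pi.smul_apply, Pi.sub_apply, smul_eq_mul] at h3
      have h4 : v' b (e k) = ∑ p, z b p * A p (e k) + ∑ b', Γ b b' * v b' (e k) := by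
        rw [h3]; ring
      rw [h4]
      congr 1
      · exact Finset.sum_congr rfl fun i _ => mul_comm _ _
      · exact Finset.sum_congr rfl fun i _ => mul_comm _ _
  rw [h2, Matrix.det_mul, Matrix.det_fromBlocks_zero₂₁, Matrix.det_one, one_mul,
    Matrix.det_transpose, mul_comm]

theorem det_blockDiag' {R : Type*} [CommRing R] {c : ℕ} {κ : Fin c → Type*}
    [∀ m, Fintype (κ m)] [∀ m, DecidableEq (κ m)] (M : ∀ m : Fin c, Matrix (κ m) (κ m) R) :
    (Matrix.blockDiagonal' M).det = ∏ m, (M m).det := by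
  rw [(Matrix.blockTriangular_blockDiagonal' M).det_fintype]
  refine Finset.prod_congr rfl fun m _ => ?_
  have h : (Matrix.blockDiagonal' M).toSquareBlock Sigma.fst m =
      (M m).submatrix (Equiv.sigmaSubtype m) (Equiv.sigmaSubtype m) := by
    ext ⟨⟨m1, a⟩, ha⟩ ⟨⟨m2, b⟩, hb⟩
    simp only at ha hb
    subst ha
    subst hb
    simp [Matrix.toSquareBlock_def, Matrix.blockDiagonal'_apply]
  rw [h, Matrix.det_submatrix_equiv_self]

variable {L : Type} [Field L] {n c r : ℕ} {d : Fin c → ℕ} (D : DSys L n c d)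
  (x : Fin r → Fin (n + 1) → L)

theorem VV_sub (G G' : Fin c → MvPolynomial (Fin (n + 1)) L) :
    VV D x (G - G') = VV D x G - VV D x G' := by
  funext s
  show VT D (x s.1) (G - G') s.2 = VT D (x s.1) G s.2 - VT D (x s.1) G' s.2
  rw [map_sub]
  rfl

theorem VV_sum {κ : Type*} (s : Finset κ) (G : κ → Fin c → MvPolynomial (Fin (n + 1)) L) :
    VV D x (∑ i ∈ s, G i) = ∑ i ∈ s, VV D x (G i) := by
  funext t
  show VT D (x t.1) (∑ i ∈ s, G i) t.2 = _
  rw [map_sum, Finset.sum_apply, Finset.sum_apply]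
  rfl

theorem VV_smul (a : L) (G : Fin c → MvPolynomial (Fin (n + 1)) L) :
    VV D x (a • G) = a • VV D x G := by
  funext t
  show VT D (x t.1) (a • G) t.2 = _
  rw [map_smul]
  rfl

theorem mon_hom (J : Fin r → Fin (n + 1)) (b : Hix r d) : Hom d (mon (L := L) d J b) := by
  intro m
  unfold mon
  split_ifs with h
  · rw [h]
    have h1 := IsHomogeneous.prod (R := L) (Finset.univ : Finset (Fin r))
      (fun i => (X (J i) : MvPolynomial (Fin (n + 1)) L) ^ (b.2.1 i)) (fun i => b.2.1 i)
      (fun i _ => by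
        have := (isHomogeneous_X L (J i)).pow (b.2.1 i)
        rwa [one_mul] at this)
    have h2 : ∑ i, b.2.1 i = d b.1 := by
      rw [← Finsupp.degree_eq_sum]
      exact b.2.2
    rwa [h2] at h1
  · exact isHomogeneous_zero _ _ _

/-- the matrix of the change of coordinates -/
noncomputable def gam (J J0 : Fin r → Fin (n + 1)) : Matrix (Fin r) (Fin r) L :=
  (Matrix.of fun i b => x b (J i)) * (Matrix.of fun i b => x b (J0 i))⁻¹

theorem pl_eq (J : Fin r → Fin (n + 1)) : (Matrix.of fun i b => x b (J i)).det = pl x J := by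
  rw [← Matrix.det_transpose]
  rfl

theorem det_gam (J J0 : Fin r → Fin (n + 1)) (_h : pl x J0 ≠ 0) :
    (gam x J J0).det = pl x J / pl x J0 := by
  unfold gam
  rw [Matrix.det_mul, Matrix.det_nonsing_inv, pl_eq, pl_eq, Ring.inverse_eq_inv', div_eq_mul_inv]

theorem gam_mul (J J0 : Fin r → Fin (n + 1)) (h : pl x J0 ≠ 0) :
    gam x J J0 * (Matrix.of fun i b => x b (J0 i)) = Matrix.of fun i b => x b (J i) := by
  unfold gam
  rw [Matrix.mul_assoc, Matrix.nonsing_inv_mul _ (by rw [pl_eq]; exact isUnit_iff_ne_zero.2 h),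
    Matrix.mul_one]

/-- restriction of the monomials -/
theorem restP_change (J J0 : Fin r → Fin (n + 1)) (h : pl x J0 ≠ 0) {e : ℕ} (a : Mon r e) :
    restP x (∏ i, X (J i) ^ (a.1 i)) =
      ∑ b : Mon r e, C (symS (gam x J J0) e a b) * restP x (∏ i, X (J0 i) ^ (b.1 i)) := by
  rw [restP_mon, ← gam_mul x J J0 h, ← subs_subs]
  conv_lhs => rw [form_sum (hom_subs (gam x J J0) (hom_mon a))]
  rw [map_sum]
  refine Finset.sum_congr rfl fun b _ => ?_
  rw [map_mul, subs_C, restP_mon]
  rfl

theorem diff_onP (J J0 : Fin r → Fin (n + 1)) (h : pl x J0 ≠ 0) (b : Hix r d) :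
    OnP x (mon d J b - ∑ b', Matrix.blockDiagonal' (fun m => symS (gam x J J0) (d m)) b b' •
      mon d J0 b') := by
  classical
  intro m
  rw [Pi.sub_apply, map_sub, Finset.sum_apply, map_sum, Fintype.sum_sigma, sub_eq_zero,
    Finset.sum_eq_single m]
  · obtain ⟨m0, a⟩ := b
    by_cases hm : m = m0
    · subst hm
      unfold mon
      simp only [Pi.smul_apply, map_smul, if_pos]
      rw [restP_change x J J0 h a]
      refine Finset.sum_congr rfl fun b' _ => ?_
      rw [Matrix.blockDiagonal'_apply_eq, smul_eq_C_mul]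
    · unfold mon
      rw [if_neg hm, map_zero]
      symm
      refine Finset.sum_eq_zero fun b' _ => ?_
      rw [Matrix.blockDiagonal'_apply_ne _ _ _ (Ne.symm hm), zero_smul, Pi.zero_apply, map_zero]
  · intro m' _ hm'
    refine Finset.sum_eq_zero fun b' _ => ?_
    rw [Pi.smul_apply, map_smul]
    have : mon (L := L) d J0 ⟨m', b'⟩ m = 0 := if_neg (Ne.symm hm')
    rw [this, map_zero, smul_zero]
  · intro hm
    exact absurd (Finset.mem_univ _) hm

/-- Module CMPR. -/
theorem cmpr : CmprStatement := by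
  classical
  intro L _ _ n c r d D x J0 h0 q C hC e J
  have h1 := det_change e (Sum.elim (PP x) fun s => (C s).val D x)
    (fun b => VV D x (mon d J0 b)) (fun b => VV D x (mon d J b))
    (Matrix.blockDiagonal' (fun m => symS (gam x J J0) (d m))) (by
      intro b
      have h2 := hC (mon d J b - ∑ b', Matrix.blockDiagonal'
        (fun m => symS (gam x J J0) (d m)) b b' • mon d J0 b') (by
          intro m
          refine (mon_hom J b m).sub ?_
          rw [Finset.sum_apply]
          refine IsHomogeneous.sum _ _ _ fun b' _ => ?_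
          rw [Pi.smul_apply, smul_eq_C_mul]
          have := (isHomogeneous_C (Fin (n + 1)) (Matrix.blockDiagonal'
            (fun m => symS (gam x J J0) (d m)) b b')).mul (mon_hom (L := L) J0 b' m)
          rwa [zero_add] at this) (diff_onP x J J0 h0 b)
      rw [VV_sub, VV_sum] at h2
      simp only [VV_smul] at h2
      rwa [Set.Sum.elim_range])
  have h3 : (Matrix.blockDiagonal' (fun m => symS (gam x J J0) (d m))).det =
      (pl x J / pl x J0) ^ NN r d := by
    rw [det_blockDiag']
    unfold NN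
    rw [← Finset.prod_pow_eq_pow_sum]
    refine Finset.prod_congr rfl fun m _ => ?_
    rw [symr, det_gam x J J0 h0]
  rw [h3] at h1
  exact h1

end Pool.Agent.Fano.H54
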