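import Pool.Agent.Lib.MP_c7af3c_ag.FANO.Iface

/-!
# MP_c7af3c_ag, project FANO: module REST
-/

set_option autoImplicit false

namespace Pool.Agent.Fano.H54

open MvPolynomial Pool.Agent.Gen Pool.Agent.Sharp Pool.Agent.Fano

variable {L : Type} [Field L] {n r : ℕ} (x : Fin r → Fin (n + 1) → L)

theorem eval_restP (F : MvPolynomial (Fin (n + 1)) L) (t : Fin r → L) :
    eval t (restP x F) = eval (fun p => ∑ a, t a * x a p) F := by
  unfold restP
  induction F using MvPolynomial.induction_on with
  | C c => simp
  | add P Q hP hQ => rw [map_add, map_add, map_add, hP, hQ]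
  | mul_X P p hP =>
    rw [map_mul, map_mul, map_mul, hP]
    congr 1
    rw [aeval_X, eval_X, map_sum]
    exact Finset.sum_congr rfl fun a _ => by rw [map_mul, eval_C, eval_X]; ring

theorem restP_X (p : Fin (n + 1)) : restP x (X p) = ∑ a, C (x a p) * X a := by
  unfold restP
  rw [aeval_X]

theorem pderiv_restP (F : MvPolynomial (Fin (n + 1)) L) (b : Fin r) :
    pderiv b (restP x F) = ∑ p, restP x (pderiv p F) * C (x b p) := by
  classical
  induction F using MvPolynomial.induction_on with
  | C c =>
    have : restP x (C c) = C c := by unfold restP; rw [aeval_C]; rfl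
    rw [this, pderiv_C]
    simp
  | add P Q hP hQ =>
    rw [map_add, map_add, hP, hQ, ← Finset.sum_add_distrib]
    exact Finset.sum_congr rfl fun p _ => by rw [map_add, map_add]; ring
  | mul_X P p hP =>
    rw [map_mul, Derivation.leibniz, hP]
    have h1 : pderiv b (restP x (X p)) = C (x b p) := by
      rw [restP_X, map_sum, Finset.sum_eq_single b]
      · rw [Derivation.leibniz, pderiv_X_self, pderiv_C]
        simp
      · intro a _ ha
        rw [Derivation.leibniz, pderiv_X_of_ne ha, pderiv_C]
        simp
      · intro h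
        exact absurd (Finset.mem_univ _) h
    rw [h1]
    have h2 : ∀ q, pderiv q (P * X p) = P * (if q = p then 1 else 0) + X p * pderiv q P := by
      intro q
      rw [Derivation.leibniz]
      simp only [smul_eq_mul]
      congr 2
      split_ifs with h
      · rw [h, pderiv_X_self]
      · rw [pderiv_X_of_ne (Ne.symm h)]
    simp only [smul_eq_mul]
    rw [Finset.mul_sum]
    have h3 : ∀ q, restP x (pderiv q (P * X p)) * C (x b q) =
        restP x P * (if q = p then 1 else 0) * C (x b q) +
        restP x (X p) * (restP x (pderiv q P) * C (x b q)) := by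
      intro q
      rw [h2, map_add, map_mul, map_mul, apply_ite (restP x), map_one, map_zero]
      ring
    rw [Finset.sum_congr rfl fun q _ => h3 q, Finset.sum_add_distrib]
    congr 1
    rw [Finset.sum_eq_single p]
    · simp
    · intro q _ hq
      simp [hq]
    · intro h
      exact absurd (Finset.mem_univ _) h

theorem hom_restP (F : MvPolynomial (Fin (n + 1)) L) (e : ℕ) (hF : F.IsHomogeneous e) :
    (restP x F).IsHomogeneous e := by
  unfold restP
  have h1 := hF.aeval (fun p => ∑ a, C (x a p) * (X a : MvPolynomial (Fin r) L)) (n := 1)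
    (fun p => IsHomogeneous.sum _ _ _ fun a _ => by
      have := (isHomogeneous_C (Fin r) (x a p)).mul (isHomogeneous_X L a)
      rwa [zero_add] at this)
  rwa [one_mul] at h1

theorem restP_mon (J : Fin r → Fin (n + 1)) (a : Fin r →₀ ℕ) :
    restP x (∏ i, X (J i) ^ a i) = subs (Matrix.of fun i b => x b (J i)) (monomial a 1) := by
  unfold subs
  rw [aeval_monomial, map_one, one_mul, map_prod, Finsupp.prod_fintype _ _ fun i => pow_zero _]
  refine Finset.prod_congr rfl fun i _ => ?_
  rw [map_pow, restP_X]
  rfl

theorem pl_update [DecidableEq (Fin r)] (J : Fin r → Fin (n + 1)) (b : Fin r) (k : Fin (n + 1)) :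
    pl x (Function.update J b k) =
      ((Matrix.of fun a b => x a (J b)).updateCol b fun a => x a k).det := by
  unfold pl
  congr 1
  ext a b'
  rw [Matrix.updateCol_apply, Matrix.of_apply, Matrix.of_apply, Function.update_apply]
  split_ifs <;> rfl

/-- Cramer's rule -/
theorem cramer_pl (J : Fin r → Fin (n + 1)) (k : Fin (n + 1)) (a : Fin r) :
    ∑ b, pl x (Function.update J b k) * x a (J b) = pl x J * x a k := by
  have h := congrFun (Matrix.mulVec_cramer (Matrix.of fun a b => x a (J b)) fun a => x a k) a
  rw [Matrix.mulVec, dotProduct] at h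
  rw [Pi.smul_apply, smul_eq_mul] at h
  rw [show pl x J = (Matrix.of fun a b => x a (J b)).det from rfl, ← h]
  refine Finset.sum_congr rfl fun b _ => ?_
  rw [Matrix.cramer_apply, pl_update, Matrix.of_apply, mul_comm]

theorem restP_hJ (J : Fin r → Fin (n + 1)) (k : Fin (n + 1)) : restP x (hJ x J k) = 0 := by
  have hC : ∀ c : L, restP x (C c) = C c := fun c => by unfold restP; rw [aeval_C]; rfl
  unfold hJ
  rw [map_sub, map_mul, hC, map_sum, restP_X, Finset.mul_sum]
  have h1 : ∀ b, restP x (C (pl x (Function.update J b k)) * X (J b)) =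
      ∑ a, C (pl x (Function.update J b k) * x a (J b)) * X a := by
    intro b
    rw [map_mul, hC, restP_X, Finset.mul_sum]
    exact Finset.sum_congr rfl fun a _ => by rw [C_mul]; ring
  rw [Finset.sum_congr rfl fun b _ => h1 b, Finset.sum_comm, sub_eq_zero]
  refine Finset.sum_congr rfl fun a _ => ?_
  rw [← Finset.sum_mul, ← map_sum, cramer_pl, C_mul, mul_assoc]

theorem exists_pl (hx : LinearIndependent L x) : ∃ J, pl x J ≠ 0 := by
  classical
  let M : Matrix (Fin r) (Fin (n + 1)) L := Matrix.of x
  have h1 : M.rank = r := by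
    have := LinearIndependent.rank_matrix (M := M) hx
    simpa using this
  rw [Matrix.rank_eq_finrank_span_cols] at h1
  obtain ⟨f, hf, hs, hli⟩ := Submodule.exists_fun_fin_finrank_span_eq L (Set.range M.col)
  choose J hJ using hf
  refine ⟨fun b => J (Fin.cast h1.symm b), ?_⟩
  have hli2 : LinearIndependent L fun b => f (Fin.cast h1.symm b) :=
    hli.comp _ (Fin.cast_injective _)
  have h2 : (Matrix.of fun a b => x a (J (Fin.cast h1.symm b))).col =
      fun b => f (Fin.cast h1.symm b) := by
    funext b
    rw [← hJ]
    rfl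
  have h3 := (Matrix.linearIndependent_cols_iff_isUnit
    (A := (Matrix.of fun a b => x a (J (Fin.cast h1.symm b))))).1 (by rw [h2]; exact hli2)
  exact (Matrix.isUnit_iff_isUnit_det _ |>.1 h3).ne_zero

theorem li_of_pl (J : Fin r → Fin (n + 1)) (hJ : pl x J ≠ 0) : LinearIndependent L x := by
  classical
  have h3 : IsUnit (Matrix.of fun a b => x a (J b)) :=
    (Matrix.isUnit_iff_isUnit_det _).2 (isUnit_iff_ne_zero.2 hJ)
  have h4 := (Matrix.linearIndependent_rows_iff_isUnit
    (A := (Matrix.of fun a b => x a (J b)))).2 h3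
  refine LinearIndependent.of_comp (LinearMap.funLeft L L J) ?_
  exact h4

/-- Module REST. -/
theorem rest : RestStatement := fun _ _ _ _ _ x =>
  ⟨eval_restP x, pderiv_restP x, hom_restP x, restP_mon x, restP_hJ x,
    exists_pl x, fun ⟨J, hJ⟩ => li_of_pl x J hJ⟩

end Pool.Agent.Fano.H54
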