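import Pool.Agent.Lib.MP_c7af3c_ag.SHARP.H46.Fin
import Pool.Agent.Lib.MP_c7af3c_ag.FANO.H54.Rest

/-!
# MP_c7af3c_ag, project FANO: the system of equations and the finiteness
-/

set_option autoImplicit false

namespace Pool.Agent.Fano.H54

open MvPolynomial WithZero Pool.Agent.Gen Pool.Agent.GenY.H46 Pool.Agent.Sharp
  Pool.Agent.Sharp.H46 Pool.Agent.Fano

section

variable {n c r : ℕ} (d : Fin c → ℕ) (J0 : Fin r → Fin (n + 1))

/-- the values of the generic form at the points of the plane -/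
noncomputable def genPt (t : Fin r → ℕ) (m : Fin c) :
    MvPolynomial (Ix (M := n) d ⊕ (Fin r × Fin (n + 1))) ℤ :=
  ∑ s : Ix (M := n) d, if s.1.1 = m then X (Sum.inl s) *
    ∏ j, (∑ a, C (t a : ℤ) * X (Sum.inr (a, j))) ^ s.1.2 j else 0

/-- the system of equations of the normalised frames -/
def EPF : Set (MvPolynomial (Ix (M := n) d ⊕ (Fin r × Fin (n + 1))) ℤ) :=
  (Set.range fun ab : Fin r × Fin r =>
    X (Sum.inr (ab.1, J0 ab.2)) - C (if ab.1 = ab.2 then 1 else 0)) ∪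
  Set.range fun tm : (Fin r → ℕ) × Fin c => genPt d tm.1 tm.2

theorem sol_EPF {L : Type} [Field L] (φ : ℤ →+* L) (a : Ix (M := n) d → L)
    (z : Fin r × Fin (n + 1) → L) : MetC.Sol (EPF d J0) φ a z ↔
      (∀ i b, z (i, J0 b) = if i = b then 1 else 0) ∧
      ∀ (t : Fin r → ℕ) m, eval (fun p => ∑ i, (t i : L) * z (i, p)) (formOf a m) = 0 := by
  have h1 : ∀ (t : Fin r → ℕ) m, eval₂ φ (Sum.elim a z) (genPt d t m) =
      eval (fun p => ∑ i, (t i : L) * z (i, p)) (formOf a m) := by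
    intro t m
    rw [eval_formOf, genPt, eval₂_sum]
    refine Finset.sum_congr rfl fun s _ => ?_
    split_ifs
    · rw [eval₂_mul, eval₂_X, eval₂_prod]
      simp only [eval₂_pow, eval₂_sum, eval₂_mul, eval₂_C, eval₂_X, Sum.elim_inl, Sum.elim_inr]
      simp
    · exact eval₂_zero _ _
  have h2 : ∀ i b, eval₂ φ (Sum.elim a z) (X (Sum.inr (i, J0 b)) -
      C (if i = b then 1 else 0)) = z (i, J0 b) - (if i = b then 1 else 0) := by
    intro i b
    rw [eval₂_sub, eval₂_X, eval₂_C, Sum.elim_inr]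
    split_ifs <;> simp
  constructor
  · intro h
    refine ⟨fun i b => ?_, fun t m => ?_⟩
    · have h3 := h _ (Or.inl ⟨(i, b), rfl⟩)
      rw [h2] at h3
      exact sub_eq_zero.1 h3
    · rw [← h1]
      exact h _ (Or.inr ⟨(t, m), rfl⟩)
  · rintro ⟨h3, h4⟩ P (⟨⟨i, b⟩, rfl⟩ | ⟨⟨t, m⟩, rfl⟩)
    · show eval₂ φ (Sum.elim a z) (X (Sum.inr (i, J0 b)) - C (if i = b then 1 else 0)) = 0
      rw [h2, h3, sub_self]
    · show eval₂ φ (Sum.elim a z) (genPt d t m) = 0
      rw [h1]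
      exact h4 t m

/-- polynomials vanishing at the natural points -/
theorem eq_zero_nat {L : Type} [Field L] [CharZero L] (P : MvPolynomial (Fin r) L)
    (h : ∀ t : Fin r → ℕ, eval (fun i => (t i : L)) P = 0) : P = 0 := by
  refine MvPolynomial.funext_set (fun _ => Set.range ((↑) : ℕ → L))
    (fun _ => Set.infinite_range_of_injective Nat.cast_injective) ?_
  intro x hx
  choose t ht using fun i => hx i (Set.mem_univ i)
  have : x = fun i => (t i : L) := funext fun i => (ht i).symm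
  rw [this, h t, map_zero]

theorem onP_of_nat {L : Type} [Field L] [CharZero L] (x : Fin r → Fin (n + 1) → L)
    (F : MvPolynomial (Fin (n + 1)) L)
    (h : ∀ t : Fin r → ℕ, eval (fun p => ∑ i, (t i : L) * x i p) F = 0) : restP x F = 0 := by
  apply eq_zero_nat
  intro t
  rw [eval_restP]
  exact h t

theorem hbcF (h : HtF n c r d J0) : MetC.HB (EPF d J0) := by
  obtain ⟨A, hA⟩ := h
  refine ⟨A, fun L _ _ φ D _ z hz S hS _ B hB j => ?_⟩
  obtain ⟨hz0, hzF⟩ := (sol_EPF d J0 φ D.a z).1 hz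
  have h1 := hA L (toDSysC d D) (fun i p => z (i, p)) hz0
    (fun m => onP_of_nat _ _ fun t => hzF t m) S hS B ⟨hB.fin, ?_, ?_⟩ j.1 j.2
  · exact h1
  · intro p m I hI f hf
    unfold toDSysC
    rw [toDSys_del _ m I hI]
    exact hB.del p _ f hf
  · intro p m I
    exact coeff_le d (S.v p) D.a (B p) (hB.a p) m I

/-- finitely many normalised frames -/
theorem finFrames (h : HtF n c r d J0) (K' : Type) [Field K'] [IsAlgClosed K']
    [CharZero K'] (F : Fin c → MvPolynomial (Fin (n + 1)) K')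
    (hF : ∀ m, (F m).IsHomogeneous (d m))
    (hind : AlgebraicIndependent ℤ (fun s : Ix (M := n) d => coeff s.1.2 (F s.1.1)))
    (S : Set K') (hS : S.Finite) :
    {x : Fin r × Fin (n + 1) → K' | (∀ j, x j ∈ Subfield.closure S) ∧
      (∀ i b, x (i, J0 b) = if i = b then 1 else 0) ∧
      ∀ (t : Fin r → ℕ) m, eval (fun p => ∑ i, (t i : K') * x (i, p)) (F m) = 0}.Finite := by
  refine (MetC.thmlAll K' (Ix (M := n) d) (Fin r × Fin (n + 1)) (EPF d J0) _ hind
    (hbcF d J0 h) S hS).subset ?_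
  rintro x ⟨hx1, hx2, hx3⟩
  refine ⟨hx1, ?_⟩
  rw [sol_EPF]
  refine ⟨hx2, fun t m => ?_⟩
  rw [← eq_formOf F hF m]
  exact hx3 t m

end

end Pool.Agent.Fano.H54
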