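import Pool.Agent.Lib.MP_c7af3c_ag.FANO.H54.Main
import Pool.Agent.Lib.MP_c7af3c_ag.FANO.H54.Cmpr
import Pool.Agent.Lib.MP_c7af3c_ag.FANO.H57.Phir
import Pool.Agent.Lib.MP_c7af3c_ag.FANO.H57.Lidlr
import Pool.Agent.Lib.MP_c7af3c_ag.FANO.H57.Lsurr
import Pool.Agent.Lib.MP_c7af3c_ag.FANO.H21.Basr
import Pool.Agent.Lib.MP_c7af3c_ag.FANO.H44.Locr
import Pool.Agent.Lib.MP_c7af3c_ag.FANO.H44.Htfr
import Pool.Agent.Lib.MP_c7af3c_ag.FANO.H32.Hbfr

/-!
# MP_c7af3c_ag, project FANO: the theorem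
-/

set_option autoImplicit false

namespace Pool.Agent.Fano.H54

open MvPolynomial WithZero Pool.Agent.Gen Pool.Agent.GenY.H46 Pool.Agent.Sharp
  Pool.Agent.Sharp.H46 Pool.Agent.Fano
open AlgebraicGeometry CategoryTheory

theorem hbf : HbfrStatement :=
  H32.hbfr rest (H21.basr H57.phir H57.lidlr H57.lsurr) cmpr H44.locr

theorem htf : HtfrStatement := H44.htfr hbf

/-- the numerical condition -/
theorem numeric {n c r : ℕ} (hr : 1 ≤ r) (d : Fin c → ℕ)
    (h : (r + 1) * (n + 1) + 1 ≤ r * r + ∑ m, (d m + r).choose r) :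
    r * (n + 1) + n + 2 ≤ NN r d + r * r + dimH r d := by
  have h1 : NN r d + dimH r d = ∑ m, (d m + r).choose r := by
    unfold NN dimH
    rw [← Finset.sum_add_distrib]
    refine Finset.sum_congr rfl fun m _ => ?_
    rw [card_mon]
    obtain ⟨s, rfl⟩ : ∃ s, r = s + 1 := ⟨r - 1, by omega⟩
    have e1 : d m + (s + 1) - 1 = d m + s := by omega
    have e2 : s + 1 + d m - 1 = d m + s := by omega
    have e3 : d m + (s + 1) = d m + s + 1 := by omega
    rw [e1, e2, e3, Nat.choose_succ_succ, Nat.choose_symm_add, add_comm]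
  have h2 : (r + 1) * (n + 1) = r * (n + 1) + n + 1 := by ring
  omega

theorem final {k : Type} [Field k] [IsAlgClosed k] [CharZero k] {n c r N : ℕ} (hr : 1 ≤ r)
    (d : Fin c → ℕ) (h : (r + 1) * (n + 1) + 1 ≤ r * r + ∑ m, (d m + r).choose r)
    (F : Fin c → MvPolynomial (Fin (n + 1)) k) (hF : ∀ m, (F m).IsHomogeneous (d m))
    (hind : AlgebraicIndependent ℤ (fun s : Ix (M := n) d => coeff s.1.2 (F s.1.1)))
    (e : (Fin r → Fin (n + 1)) ≃ Fin (N + 1))
    (Y : Over (Spec (CommRingCat.of k))) (hY : FinOver k N (fanoForms F r e) Y) :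
    IsGL k Y ∧ IsAH k Y :=
  main F e hr d (htf n c r d (numeric hr d h)) hF hind Y hY

end Pool.Agent.Fano.H54
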