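import Pool.Agent.Lib.MP_c7af3c_ag.FANO.H54.Fin

/-!
# MP_c7af3c_ag, project FANO: schemes finite over the Fano variety
-/

set_option autoImplicit false

namespace Pool.Agent.Fano.H54

open MvPolynomial WithZero Pool.Agent.Gen Pool.Agent.GenY.H46 Pool.Agent.Sharp
  Pool.Agent.Sharp.H46 Pool.Agent.Fano
open AlgebraicGeometry CategoryTheory

/-- all forms which vanish at the Plücker points of the planes on which the `F m` vanish -/
def fanoForms {k : Type} [Field k] {n c : ℕ} (F : Fin c → MvPolynomial (Fin (n + 1)) k) (r : ℕ)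
    {N : ℕ} (e : (Fin r → Fin (n + 1)) ≃ Fin (N + 1)) : Set (MvPolynomial (Fin (N + 1)) k) :=
  {g | (∃ t, g.IsHomogeneous t) ∧ ∀ x : Fin r → Fin (n + 1) → k, LinearIndependent k x →
    (∀ (t : Fin r → k) m, eval (fun p => ∑ a, t a * x a p) (F m) = 0) →
    eval (fun b => pl x (e.symm b)) g = 0}

section

variable {k : Type} [Field k] {n c r N : ℕ} (F : Fin c → MvPolynomial (Fin (n + 1)) k)
  (e : (Fin r → Fin (n + 1)) ≃ Fin (N + 1))

theorem pl_update_adj (x : Fin r → Fin (n + 1) → k) (J0 : Fin r → Fin (n + 1)) (a : Fin r)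
    (p : Fin (n + 1)) : pl x (Function.update J0 a p) =
      ∑ a', (Matrix.of fun a b => x a (J0 b)).adjugate a a' * x a' p := by
  rw [pl_update, ← Matrix.cramer_apply]
  rw [Matrix.cramer_eq_adjugate_mulVec]
  rfl

/-- evaluation of a substituted polynomial -/
theorem eval_map_aeval {K' : Type} [Field K'] (φ : k →+* K') {σ τ : Type} (p : σ → K')
    (f : τ → MvPolynomial σ k) (G : MvPolynomial τ k) :
    MvPolynomial.eval p (MvPolynomial.map φ (aeval f G)) =
      MvPolynomial.eval (fun i => MvPolynomial.eval p (MvPolynomial.map φ (f i)))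
        (MvPolynomial.map φ G) := by
  induction G using MvPolynomial.induction_on with
  | C c => rw [aeval_C, algebraMap_eq, map_C, map_C, eval_C, eval_C]
  | add P Q hP hQ => rw [map_add, map_add, map_add, hP, hQ, map_add, map_add]
  | mul_X P i hP => rw [map_mul, map_mul, map_mul, hP, map_mul, map_mul, aeval_X, map_X, eval_X]

/-- the linear forms -/
theorem memA (J0 : Fin r → Fin (n + 1)) (a b : Fin r) (hab : a ≠ b) :
    X (e (Function.update J0 a (J0 b))) ∈ fanoForms F r e := by
  refine ⟨⟨1, isHomogeneous_X _ _⟩, fun x _ _ => ?_⟩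
  rw [eval_X, Equiv.symm_apply_apply]
  unfold pl
  refine Matrix.det_zero_of_column_eq hab fun i => ?_
  simp only [Matrix.of_apply]
  rw [Function.update_self, Function.update_of_ne (Ne.symm hab)]

/-- the relations which express all coordinates by the normalised frame -/
theorem memB (hr : 1 ≤ r) (J0 J : Fin r → Fin (n + 1)) :
    X (e J0) ^ (r - 1) * X (e J) - Matrix.det (Matrix.of fun a b =>
      (X (e (Function.update J0 a (J b))) : MvPolynomial (Fin (N + 1)) k)) ∈
      fanoForms F r e := by
  classical
  refine ⟨⟨r, ?_⟩, fun x _ _ => ?_⟩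
  · refine IsHomogeneous.sub ?_ ?_
    · have h1 := ((isHomogeneous_X k (e J0)).pow (r - 1)).mul (isHomogeneous_X k (e J))
      have h2 : 1 * (r - 1) + 1 = r := by omega
      rwa [h2] at h1
    · rw [Matrix.det_apply]
      refine IsHomogeneous.sum _ _ _ fun σ _ => ?_
      have h3 := IsHomogeneous.prod (R := k) (Finset.univ : Finset (Fin r))
        (fun i => (X (e (Function.update J0 (σ i) (J i))) : MvPolynomial (Fin (N + 1)) k))
        (fun _ => 1) (fun i _ => isHomogeneous_X k _)
      rw [Finset.sum_const, Finset.card_univ, Fintype.card_fin, smul_eq_mul, mul_one] at h3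
      rcases Int.units_eq_one_or (Equiv.Perm.sign σ) with h | h
      · rw [h, one_smul]; exact h3
      · rw [h, Units.neg_smul, one_smul]; exact h3.neg
  · rw [map_sub, map_mul, map_pow, eval_X, eval_X, Equiv.symm_apply_apply,
      Equiv.symm_apply_apply, RingHom.map_det]
    have h1 : (eval fun b => pl x (e.symm b)).mapMatrix (Matrix.of fun a b =>
        (X (e (Function.update J0 a (J b))) : MvPolynomial (Fin (N + 1)) k)) =
        (Matrix.of fun a b => x a (J0 b)).adjugate * (Matrix.of fun a b => x a (J b)) := by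
      ext a b
      rw [Matrix.mul_apply]
      simp only [RingHom.mapMatrix_apply, Matrix.map_apply, Matrix.of_apply, eval_X,
        Equiv.symm_apply_apply]
      rw [pl_update_adj]
    rw [h1, Matrix.det_mul, Matrix.det_adjugate, Fintype.card_fin]
    unfold pl
    rw [sub_self]

/-- the forms which express that the plane lies in `X` -/
theorem memC {d : Fin c → ℕ} (hF : ∀ m, (F m).IsHomogeneous (d m)) (J0 : Fin r → Fin (n + 1))
    (t : Fin r → k) (m : Fin c) :
    aeval (fun p => ∑ a, C (t a) * (X (e (Function.update J0 a p)) :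
      MvPolynomial (Fin (N + 1)) k)) (F m) ∈ fanoForms F r e := by
  refine ⟨⟨d m, ?_⟩, fun x _ hx => ?_⟩
  · have h1 := (hF m).aeval (fun p => ∑ a, C (t a) * (X (e (Function.update J0 a p)) :
      MvPolynomial (Fin (N + 1)) k)) (n := 1) (fun p => IsHomogeneous.sum _ _ _ fun a _ => by
        have := (isHomogeneous_C (Fin (N + 1)) (t a)).mul
          (isHomogeneous_X k (e (Function.update J0 a p)))
        rwa [zero_add] at this)
    rwa [one_mul] at h1
  · have h1 := hx (fun a' => ∑ a, t a * (Matrix.of fun a b => x a (J0 b)).adjugate a a') m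
    have h2 : (eval fun b => pl x (e.symm b)) (aeval (fun p => ∑ a, C (t a) *
        (X (e (Function.update J0 a p)) : MvPolynomial (Fin (N + 1)) k)) (F m)) =
        eval (fun p => ∑ a, t a * pl x (Function.update J0 a p)) (F m) := by
      have h3 := eval_map_aeval (RingHom.id k) (fun b => pl x (e.symm b)) (fun p => ∑ a, C (t a) *
        (X (e (Function.update J0 a p)) : MvPolynomial (Fin (N + 1)) k)) (F m)
      simp only [MvPolynomial.map_id] at h3
      rw [h3]
      congr 2
      funext p
      rw [map_sum]
      exact Finset.sum_congr rfl fun a _ => by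
        rw [map_mul, eval_C, eval_X, Equiv.symm_apply_apply]
    rw [h2, ← h1]
    congr 2
    funext p
    simp only [pl_update_adj, Finset.mul_sum, Finset.sum_mul]
    rw [Finset.sum_comm]
    exact Finset.sum_congr rfl fun a' _ => Finset.sum_congr rfl fun a _ => by ring

/-- finitely many normalised Plücker vectors -/
theorem finSolF [IsAlgClosed k] [CharZero k] (hr : 1 ≤ r) (d : Fin c → ℕ)
    (h : ∀ J0, HtF n c r d J0)
    (hF : ∀ m, (F m).IsHomogeneous (d m))
    (hind : AlgebraicIndependent ℤ (fun s : Ix (M := n) d => coeff s.1.2 (F s.1.1)))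
    (K' : Type) [Field K'] [IsAlgClosed K'] [Algebra k K'] :
    FinSol K' N (MvPolynomial.map (algebraMap k K') '' fanoForms F r e) := by
  classical
  intro S hS j0
  have : CharZero K' := charZero_of_injective_algebraMap (algebraMap k K').injective
  set J0 := e.symm j0 with hJ0
  have heJ0 : e J0 = j0 := by rw [hJ0, Equiv.apply_symm_apply]
  have hind' : AlgebraicIndependent ℤ (fun s : Ix (M := n) d =>
      coeff s.1.2 (map (algebraMap k K') (F s.1.1))) := by
    have h1 : (fun s : Ix (M := n) d => coeff s.1.2 (map (algebraMap k K') (F s.1.1))) =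
        (algebraMap k K').toIntAlgHom ∘ (fun s : Ix (M := n) d => coeff s.1.2 (F s.1.1)) := by
      funext s
      rw [coeff_map]
      rfl
    rw [h1]
    exact hind.map' (f := (algebraMap k K').toIntAlgHom) (algebraMap k K').injective
  have hfin := finFrames d J0 (h J0) K' (fun m => map (algebraMap k K') (F m))
    (fun m => (hF m).map _) hind' S hS
  let fr : (Fin (N + 1) → K') → (Fin r × Fin (n + 1) → K') := fun p s =>
    p (e (Function.update J0 s.1 s.2))
  refine Set.Finite.of_finite_image (f := fr) (hfin.subset ?_) ?_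
  · rintro _ ⟨p, ⟨hp1, hp2, hp3⟩, rfl⟩
    refine ⟨fun j => hp2 _, fun i b => ?_, fun t m => ?_⟩
    · show p (e (Function.update J0 i (J0 b))) = _
      by_cases hib : i = b
      · subst hib
        rw [if_pos rfl, Function.update_eq_self, heJ0]
        exact hp1
      · rw [if_neg hib]
        have h1 := hp3 _ ⟨_, memA F e J0 i b hib, rfl⟩
        rwa [map_X, eval_X] at h1
    · have h1 := hp3 _ ⟨_, memC F e hF J0 (fun a => (t a : k)) m, rfl⟩
      rw [← h1, eval_map_aeval]
      congr 2
      funext p'
      rw [map_sum, map_sum]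
      exact Finset.sum_congr rfl fun a _ => by
        rw [map_mul, map_mul, map_C, map_X, eval_C, eval_X, map_natCast]
  · rintro p ⟨hp1, _, hp3⟩ q ⟨hq1, _, hq3⟩ hpq
    funext j
    have key : ∀ p : Fin (N + 1) → K', p j0 = 1 →
        (∀ g ∈ MvPolynomial.map (algebraMap k K') '' fanoForms F r e, eval p g = 0) →
        p j = Matrix.det (Matrix.of fun a b => fr p (a, e.symm j b)) := by
      intro p hp1 hp3
      have h1 := hp3 _ ⟨_, memB F e hr J0 (e.symm j), rfl⟩
      rw [map_sub, map_mul, map_pow, map_X, map_X, map_sub, map_mul, map_pow, eval_X, eval_X,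
        heJ0, hp1, one_pow, one_mul, Equiv.apply_symm_apply, sub_eq_zero] at h1
      rw [h1, RingHom.map_det, RingHom.map_det]
      congr 1
      ext a b
      simp [fr]
    rw [key p hp1 hp3, key q hq1 hq3, hpq]

theorem main [IsAlgClosed k] [CharZero k] (hr : 1 ≤ r) (d : Fin c → ℕ)
    (h : ∀ J0, HtF n c r d J0)
    (hF : ∀ m, (F m).IsHomogeneous (d m))
    (hind : AlgebraicIndependent ℤ (fun s : Ix (M := n) d => coeff s.1.2 (F s.1.1)))
    (Y : Over (Spec (CommRingCat.of k))) (hY : FinOver k N (fanoForms F r e) Y) :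
    IsGL k Y ∧ IsAH k Y := by
  constructor
  · exact grplY k N (fanoForms F r e) (fun g hg => hg.1)
      (fun K' _ _ _ => finSolF F e hr d h hF hind K') Y hY
  · refine sfinY k N (fanoForms F r e) (fun g hg => hg.1) ?_ Y hY
    have h1 := finSolF F e hr d h hF hind k
    have h2 : (MvPolynomial.map (algebraMap k k) '' fanoForms F r e) = fanoForms F r e := by
      rw [Algebra.algebraMap_self]
      have : (MvPolynomial.map (RingHom.id k) : MvPolynomial (Fin (N + 1)) k →+* _) =
          RingHom.id _ := by
        ext <;> simp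
      rw [this]
      simp
    rwa [h2] at h1

end

end Pool.Agent.Fano.H54
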